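import Mathlib
import Pool.Agent.H17.Zp2

namespace Pool.Agent.Results.MP_b3a110_an.Ind
open Pool.Agent.H17.Zp

theorem result : ∃ (X : Type) (_ : TopologicalSpace X) (_ : CompactSpace X)
    (_ : TopologicalSpace.MetrizableSpace X) (T : X ≃ₜ X), (∀ x, T x ≠ x) ∧
    ∀ (p : ℕ) [NeZero p], p.Prime → 3 ≤ p → IsLeast {n | IndMap T p n} (p / 3 - 1) :=
  ⟨XX, inferInstance, inferInstance, inferInstance, TT, TT_fix, fun _ _ hp h3 => ind_eq hp h3⟩

end Pool.Agent.Results.MP_b3a110_an.Ind
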